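import Pool.Agent.W516.MTZ.Stm

set_option autoImplicit false

namespace Pool.Agent.W804.MTZ

open Matrix Pool.Agent.W516.MTZ

variable {m X : Type} [Fintype m] [DecidableEq m] [Fintype X] [DecidableEq X]

/-- the fitting condition by vectors -/
structure Ft (M : Motive m X) (g : Matrix m m ℂ) (l : ℂ) (f : X → ℂ) : Prop where
  co : g *ᵥ (Pi.single M.o 1) = Pi.single M.o 1
  ct : g *ᵥ (Pi.single M.t 1) = l • Pi.single M.t 1
  cs : ∀ x, g *ᵥ (Pi.single (M.s x) 1) = l ^ M.deg x • Pi.single (M.s x) 1 +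
    f x • Pi.single M.o 1

omit [Fintype m] [Fintype X] in
theorem ot (M : Motive m X) : M.o ≠ M.t := by
  intro h
  have h1 := M.wt_o
  rw [h, M.wt_t] at h1
  exact one_ne_zero h1

omit [Fintype m] [Fintype X] in
theorem os (M : Motive m X) (x : X) : M.o ≠ M.s x := by
  intro h
  have h1 := M.wt_o
  rw [h, M.wt_s] at h1
  exact (M.deg_pos x).ne' h1

omit [Fintype m] [Fintype X] in
theorem ts (M : Motive m X) (x : X) : M.t ≠ M.s x := by
  intro h
  have h1 := M.op_s x x M.o
  rw [← h, M.op_t] at h1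
  simp at h1

omit [Fintype X] in
theorem entry (g : Matrix m m ℂ) (i j : m) : (g *ᵥ (Pi.single j 1)) i = g i j := by
  simp

omit [Fintype X] in
theorem ft_tt {M : Motive m X} {g : Matrix m m ℂ} {l : ℂ} {f : X → ℂ} (h : Ft M g l f) :
    g M.t M.t = l := by
  rw [← entry g M.t M.t, h.ct]
  simp

omit [Fintype X] in
theorem ft_os {M : Motive m X} {g : Matrix m m ℂ} {l : ℂ} {f : X → ℂ} (h : Ft M g l f) (x : X) :
    g M.o (M.s x) = f x := by
  rw [← entry g M.o (M.s x), h.cs]
  simp [os M x]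

omit [Fintype X] in
theorem fits_of_ft {M : Motive m X} {g : Matrix m m ℂ} {l : ℂ} {f : X → ℂ} (h : Ft M g l f) :
    Fits M g := by
  refine ⟨fun i => ?_, fun i => ?_, fun x i => ?_⟩
  · rw [← entry g i M.o, h.co]
    simp [Pi.single_apply]
  · rw [ft_tt h, ← entry g i M.t, h.ct]
    simp [Pi.single_apply]
  · rw [ft_tt h, ft_os h, ← entry g i (M.s x), h.cs]
    simp only [Pi.add_apply, Pi.smul_apply, Pi.single_apply, smul_eq_mul]
    by_cases h1 : i = M.s x
    · subst h1
      have := (os M x).symm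
      simp [this]
    · simp [h1]

omit [Fintype X] in
theorem ft_of_fits {M : Motive m X} {g : Matrix m m ℂ} (h : Fits M g) :
    Ft M g (g M.t M.t) (fun x => g M.o (M.s x)) := by
  refine ⟨?_, ?_, fun x => ?_⟩
  · ext i
    rw [entry, h.co]
    simp [Pi.single_apply]
  · ext i
    rw [entry, h.ct]
    simp [Pi.single_apply]
  · ext i
    rw [entry, h.cs]
    simp only [Pi.add_apply, Pi.smul_apply, Pi.single_apply, smul_eq_mul]
    by_cases h1 : i = M.s x
    · subst h1
      have := (os M x).symm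
      simp [this]
    · simp [h1]

omit [Fintype X] in
theorem ft_mul {M : Motive m X} {g h : Matrix m m ℂ} {l l' : ℂ} {f f' : X → ℂ}
    (hg : Ft M g l f) (hh : Ft M h l' f') :
    Ft M (g * h) (l * l') (fun x => l' ^ M.deg x * f x + f' x) := by
  refine ⟨?_, ?_, fun x => ?_⟩
  · rw [← mulVec_mulVec, hh.co, hg.co]
  · rw [← mulVec_mulVec, hh.ct, mulVec_smul, hg.ct, smul_smul, mul_comm]
  · rw [← mulVec_mulVec, hh.cs, mulVec_add, mulVec_smul, mulVec_smul, hg.cs, hg.co, smul_add,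
      smul_smul, smul_smul, add_smul, mul_pow, mul_comm (l ^ M.deg x), add_assoc]

omit [Fintype X] in
theorem ft_one (M : Motive m X) : Ft M (1 : Matrix m m ℂ) 1 0 := by
  refine ⟨?_, ?_, fun x => ?_⟩
  · rw [one_mulVec]
  · rw [one_mulVec, one_smul]
  · rw [one_mulVec, one_pow, one_smul, Pi.zero_apply, zero_smul, add_zero]

omit [Fintype X] in
theorem ft_inv {M : Motive m X} {g g' : Matrix m m ℂ} {l : ℂ} {f : X → ℂ}
    (hg : Ft M g l f) (h1 : g' * g = 1) : ∃ f', Ft M g' l⁻¹ f' := by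
  have hl : l ≠ 0 := by
    intro h0
    have h2 : (g' * g) *ᵥ (Pi.single M.t 1) = (0 : m → ℂ) := by
      rw [← mulVec_mulVec, hg.ct, h0, zero_smul, mulVec_zero]
    rw [h1, one_mulVec] at h2
    have h3 := congrFun h2 M.t
    simp at h3
  have ho : g' *ᵥ (Pi.single M.o 1) = Pi.single M.o 1 := by
    have h2 : (g' * g) *ᵥ (Pi.single M.o 1) = g' *ᵥ (Pi.single M.o 1) := by
      rw [← mulVec_mulVec, hg.co]
    rw [h1, one_mulVec] at h2
    exact h2.symm
  refine ⟨fun x => -((l⁻¹) ^ M.deg x * f x), ho, ?_, fun x => ?_⟩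
  · have h2 : (g' * g) *ᵥ (Pi.single M.t 1) = l • g' *ᵥ (Pi.single M.t 1) := by
      rw [← mulVec_mulVec, hg.ct, mulVec_smul]
    rw [h1, one_mulVec] at h2
    have h3 := congrArg (fun v => l⁻¹ • v) h2
    simp only [smul_smul, inv_mul_cancel₀ hl, one_smul] at h3
    exact h3.symm
  · have h2 : (g' * g) *ᵥ (Pi.single (M.s x) 1) = l ^ M.deg x • g' *ᵥ (Pi.single (M.s x) 1) +
        f x • Pi.single M.o 1 := by
      rw [← mulVec_mulVec, hg.cs, mulVec_add, mulVec_smul, mulVec_smul, ho]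
    rw [h1, one_mulVec] at h2
    have h3 : (Pi.single (M.s x) 1 : m → ℂ) - f x • Pi.single M.o 1 =
        l ^ M.deg x • g' *ᵥ (Pi.single (M.s x) 1) := by
      rw [h2, add_sub_cancel_right]
      rw [← h2]
    have h4 : (l⁻¹) ^ M.deg x * l ^ M.deg x = 1 := by
      rw [← mul_pow, inv_mul_cancel₀ hl, one_pow]
    have h5 := congrArg (fun v => (l⁻¹) ^ M.deg x • v) h3
    simp only [smul_smul, h4, one_smul, smul_sub] at h5
    rw [← h5, neg_smul, sub_eq_add_neg]

/-- the operator -/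
noncomputable def NN (M : Motive m X) (c : ℂ) (x : X) : Matrix m m ℂ :=
  c • (M.op x).map (algebraMap ℚ ℂ)

omit [Fintype X] in
theorem NN_pow (M : Motive m X) (c : ℂ) (x : X) (k : ℕ) : ∀ i j, (NN M c x ^ k) i j ≠ 0 →
    M.wt j = M.wt i + k * M.deg x := by
  induction k with
  | zero =>
    intro i j h
    rw [pow_zero] at h
    have : i = j := by
      by_contra h1
      exact h (one_apply_ne h1)
    subst this
    simp
  | succ k ih =>
    intro i j h
    rw [pow_succ, mul_apply] at h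
    obtain ⟨l, _, hl⟩ := Finset.exists_ne_zero_of_sum_ne_zero h
    have h1 := ih i l (left_ne_zero_of_mul hl)
    have h2 := right_ne_zero_of_mul hl
    have h3 : M.op x l j ≠ 0 := by
      intro h0
      apply h2
      simp [NN, h0]
    have h4 := M.op_deg x l j h3
    rw [h4, h1]
    ring

omit [Fintype X] in
theorem NN_nil (M : Motive m X) (c : ℂ) (x : X) : ∃ K, NN M c x ^ (K + 2) = 0 := by
  refine ⟨Finset.univ.sup M.wt, ?_⟩
  ext i j
  rw [Matrix.zero_apply]
  by_contra h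
  have h1 := NN_pow M c x _ i j h
  have h2 : M.wt j ≤ Finset.univ.sup M.wt := Finset.le_sup (Finset.mem_univ j)
  have h3 := M.deg_pos x
  have h4 : (Finset.univ.sup M.wt + 2) * 1 ≤ (Finset.univ.sup M.wt + 2) * M.deg x :=
    Nat.mul_le_mul_left _ h3
  omega

omit [Fintype X] in
theorem exp_vec (M : Motive m X) (c : ℂ) (x : X) (v : m → ℂ)
    (hv : NN M c x *ᵥ (NN M c x *ᵥ v) = 0) :
    IsNilpotent.exp (NN M c x) *ᵥ v = v + NN M c x *ᵥ v := by
  obtain ⟨K, hK⟩ := NN_nil M c x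
  have hz : ∀ i, NN M c x ^ (i + 2) *ᵥ v = 0 := by
    intro i
    rw [pow_add, ← mulVec_mulVec, sq, ← mulVec_mulVec, hv, mulVec_zero]
  rw [IsNilpotent.exp_eq_sum hK, Finset.sum_range_succ', Finset.sum_range_succ']
  rw [add_mulVec, add_mulVec]
  have h0 : (∑ k ∈ Finset.range K, ((k + 1 + 1).factorial : ℚ)⁻¹ • NN M c x ^ (k + 1 + 1)) *ᵥ v
      = 0 := by
    rw [sum_mulVec]
    refine Finset.sum_eq_zero fun k _ => ?_
    rw [smul_mulVec, hz k, smul_zero]
  rw [h0]
  simp [add_comm]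

omit [Fintype X] in
theorem NN_single (M : Motive m X) (c : ℂ) (x : X) (i j : m) :
    (NN M c x *ᵥ (Pi.single j 1)) i = c * ((M.op x i j : ℚ) : ℂ) := by
  rw [entry]
  simp [NN]

omit [Fintype X] in
theorem ft_exp (M : Motive m X) (c : ℂ) (x : X) :
    Ft M (IsNilpotent.exp (NN M c x)) 1 (fun y => if x = y then c else 0) := by
  have ho : NN M c x *ᵥ (Pi.single M.o 1) = 0 := by
    ext i
    rw [NN_single, M.op_o]
    simp
  have ht : NN M c x *ᵥ (Pi.single M.t 1) = 0 := by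
    ext i
    rw [NN_single, M.op_t]
    simp
  have hs : ∀ y, NN M c x *ᵥ (Pi.single (M.s y) 1) = (if x = y then c else 0) •
      (Pi.single M.o 1 : m → ℂ) := by
    intro y
    ext i
    rw [NN_single, M.op_s]
    simp only [Pi.smul_apply, Pi.single_apply, smul_eq_mul]
    by_cases h1 : i = M.o <;> by_cases h2 : x = y <;> simp [h1, h2]
  refine ⟨?_, ?_, fun y => ?_⟩
  · rw [exp_vec M c x _ (by rw [ho, mulVec_zero]), ho, add_zero]
  · rw [exp_vec M c x _ (by rw [ht, mulVec_zero]), ht, add_zero, one_smul]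
  · rw [exp_vec M c x _ (by rw [hs, mulVec_smul, ho, smul_zero]), hs, one_pow, one_smul]

omit [Fintype X] in
theorem ft_diag (M : Motive m X) (μ : ℂ) : Ft M (diagonal fun i => μ ^ M.wt i) μ 0 := by
  have h : ∀ j, (diagonal fun i => μ ^ M.wt i) *ᵥ (Pi.single j (1 : ℂ)) =
      μ ^ M.wt j • (Pi.single j 1 : m → ℂ) := by
    intro j
    ext i
    rw [mulVec_diagonal]
    simp only [Pi.smul_apply, Pi.single_apply, smul_eq_mul]
    by_cases h1 : i = j
    · rw [h1]
    · simp [h1]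
  refine ⟨?_, ?_, fun y => ?_⟩
  · rw [h, M.wt_o, pow_zero, one_smul]
  · rw [h, M.wt_t, pow_one]
  · rw [h, M.wt_s, Pi.zero_apply, zero_smul, add_zero]

theorem T_FIT : StFit := by
  intro m X _ _ _ _ M
  have hinv : ∀ g : (Matrix m m ℂ)ˣ, Fits M (g : Matrix m m ℂ) →
      Fits M ((g⁻¹ : (Matrix m m ℂ)ˣ) : Matrix m m ℂ) := by
    intro g hg
    obtain ⟨f', h⟩ := ft_inv (ft_of_fits hg) g.inv_mul
    exact fits_of_ft h
  refine ⟨?_, ?_, hinv, ?_, ?_⟩
  · intro g hg
    unfold Motive.gp at hg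
    induction hg using Subgroup.closure_induction with
    | mem g hg =>
      rcases hg with ⟨μ, _, h⟩ | ⟨c, x, h⟩
      · rw [h]
        exact fits_of_ft (ft_diag M μ)
      · rw [h]
        exact fits_of_ft (ft_exp M c x)
    | one =>
      rw [Units.val_one]
      exact fits_of_ft (ft_one M)
    | mul a b _ _ ha hb =>
      rw [Units.val_mul]
      exact fits_of_ft (ft_mul (ft_of_fits ha) (ft_of_fits hb))
    | inv a _ ha => exact hinv a ha
  · intro g h hg hh
    have h1 := ft_mul (ft_of_fits hg) (ft_of_fits hh)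
    exact ⟨fits_of_ft h1, ft_tt h1, fun x => ft_os h1 x⟩
  · intro c x y
    exact ft_os (ft_exp M c x) y
  · intro c x
    exact ft_tt (ft_exp M c x)

end Pool.Agent.W804.MTZ
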